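import Mathlib

namespace Pool.Agent.Results.MP_c50127_co.ChristoffelLyndon

/-- Finite words over the ordered alphabet `a < b`, the letter `a` being `false` and `b` being `true`. The order `<` on words is the lexicographic order. -/
abbrev Word := List Bool

/-- A nonempty word is a Lyndon word if it is strictly smaller than each of its proper nonempty suffixes. -/
def IsLyndon (w : Word) : Prop :=
  w ≠ [] ∧ ∀ u v : Word, u ≠ [] → v ≠ [] → w = u ++ v → w < v

/-- The set of factors of `w` which are Lyndon words. -/
def lyndonFactors (w : Word) : Set Word := {f | f <:+: w ∧ IsLyndon f}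

/-- The number of distinct Lyndon factors of `w`. -/
noncomputable def L (w : Word) : ℕ := (lyndonFactors w).ncard

/-- The minimum of `L w` over the Lyndon words `w` of length `n`. -/
noncomputable def m (n : ℕ) : ℕ := sInf {k | ∃ w : Word, w.length = n ∧ IsLyndon w ∧ L w = k}

/-- The Christoffel word of slope `p / n`: its letter number `i + 1` is `a` iff
`⌊(i+1)p/n⌋ = ⌊ip/n⌋`. -/
def christoffel (p n : ℕ) : Word :=
  (List.range n).map fun i => decide ((i + 1) * p / n ≠ i * p / n)

/-! ### the two substitutions -/

/-- `a ↦ a`, `b ↦ ab`. -/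
def G : Word → Word
  | [] => []
  | false :: w => false :: G w
  | true :: w => false :: true :: G w

/-- `a ↦ ab`, `b ↦ b`. -/
def D : Word → Word
  | [] => []
  | false :: w => false :: true :: D w
  | true :: w => true :: D w

theorem G_append (u v : Word) : G (u ++ v) = G u ++ G v := by
  induction u with
  | nil => rfl
  | cons c u ih => cases c <;> simp [G, ih]

theorem D_append (u v : Word) : D (u ++ v) = D u ++ D v := by
  induction u with
  | nil => rfl
  | cons c u ih => cases c <;> simp [D, ih]

theorem G_ne {u : Word} (h : u ≠ []) : G u ≠ [] := by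
  cases u with
  | nil => exact absurd rfl h
  | cons c u => cases c <;> simp [G]

theorem D_ne {u : Word} (h : u ≠ []) : D u ≠ [] := by
  cases u with
  | nil => exact absurd rfl h
  | cons c u => cases c <;> simp [D]

theorem G_head {u : Word} (h : u ≠ []) : ∃ v, G u = false :: v := by
  cases u with
  | nil => exact absurd rfl h
  | cons c u => cases c <;> exact ⟨_, rfl⟩

theorem G_lt_true (u v : Word) : G u < true :: v := by
  cases u with
  | nil => simp [G]
  | cons c u => cases c <;> simp [G, List.cons_lt_cons_iff]

theorem G_mono {u v : Word} (h : u < v) : G u < G v := by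
  induction u generalizing v with
  | nil =>
    cases v with
    | nil => exact absurd h (lt_irrefl _)
    | cons d v => cases d <;> simp [G]
  | cons c u ih =>
    cases v with
    | nil => simp at h
    | cons d v =>
      cases c <;> cases d
      · have h' : u < v := by simpa [List.cons_lt_cons_iff] using h
        simpa [G, List.cons_lt_cons_iff] using ih h'
      · simpa [G, List.cons_lt_cons_iff] using G_lt_true u (G v)
      · exact absurd h (by simp [List.cons_lt_cons_iff])
      · have h' : u < v := by simpa [List.cons_lt_cons_iff] using h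
        simpa [G, List.cons_lt_cons_iff] using ih h'

theorem D_mono {u v : Word} (h : u < v) : D u < D v := by
  induction u generalizing v with
  | nil =>
    cases v with
    | nil => exact absurd h (lt_irrefl _)
    | cons d v => cases d <;> simp [D]
  | cons c u ih =>
    cases v with
    | nil => simp at h
    | cons d v =>
      cases c <;> cases d
      · have h' : u < v := by simpa [List.cons_lt_cons_iff] using h
        simpa [D, List.cons_lt_cons_iff] using ih h'
      · simp [D, List.cons_lt_cons_iff]
      · exact absurd h (by simp [List.cons_lt_cons_iff])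
      · have h' : u < v := by simpa [List.cons_lt_cons_iff] using h
        simpa [D, List.cons_lt_cons_iff] using ih h'

theorem G_strictMono : StrictMono G := fun _ _ h => G_mono h
theorem D_strictMono : StrictMono D := fun _ _ h => D_mono h

/-- cutting lemma: a cut of `G z` not between an `a` and a `b` comes from a cut of `z`. -/
theorem G_cut (z s t : Word) (h : G z = s ++ t)
    (hc : ¬ (∃ s' t', s = s' ++ [false] ∧ t = true :: t')) :
    ∃ z1 z2, z = z1 ++ z2 ∧ G z1 = s ∧ G z2 = t := by
  induction z generalizing s with
  | nil =>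
    have h2 : s = [] ∧ t = [] := by
      have := h.symm
      simpa [G] using this
    exact ⟨[], [], rfl, by simp [G, h2.1], by simp [G, h2.2]⟩
  | cons c z ih =>
    cases s with
    | nil => exact ⟨[], c :: z, rfl, rfl, by simpa using h⟩
    | cons x s =>
      cases c with
      | false =>
        simp only [G, List.cons_append, List.cons.injEq] at h
        obtain ⟨rfl, h⟩ := h
        obtain ⟨z1, z2, e1, e2, e3⟩ := ih s h (by
          rintro ⟨s', t', e1, e2⟩
          exact hc ⟨false :: s', t', by simp [e1], e2⟩)
        exact ⟨false :: z1, z2, by simp [e1], by simp [G, e2], e3⟩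
      | true =>
        simp only [G, List.cons_append, List.cons.injEq] at h
        obtain ⟨rfl, h⟩ := h
        cases s with
        | nil =>
          exfalso
          apply hc
          exact ⟨[], G z, rfl, by simpa using h.symm⟩
        | cons y s =>
          simp only [List.cons_append, List.cons.injEq] at h
          obtain ⟨rfl, h⟩ := h
          obtain ⟨z1, z2, e1, e2, e3⟩ := ih s h (by
            rintro ⟨s', t', e1, e2⟩
            exact hc ⟨false :: true :: s', t', by simp [e1], e2⟩)
          exact ⟨true :: z1, z2, by simp [e1], by simp [G, e2], e3⟩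

theorem D_cut (z s t : Word) (h : D z = s ++ t)
    (hc : ¬ (∃ s' t', s = s' ++ [false] ∧ t = true :: t')) :
    ∃ z1 z2, z = z1 ++ z2 ∧ D z1 = s ∧ D z2 = t := by
  induction z generalizing s with
  | nil =>
    have h2 : s = [] ∧ t = [] := by
      have := h.symm
      simpa [D] using this
    exact ⟨[], [], rfl, by simp [D, h2.1], by simp [D, h2.2]⟩
  | cons c z ih =>
    cases s with
    | nil => exact ⟨[], c :: z, rfl, rfl, by simpa using h⟩
    | cons x s =>
      cases c with
      | true =>
        simp only [D, List.cons_append, List.cons.injEq] at h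
        obtain ⟨rfl, h⟩ := h
        obtain ⟨z1, z2, e1, e2, e3⟩ := ih s h (by
          rintro ⟨s', t', e1, e2⟩
          exact hc ⟨true :: s', t', by simp [e1], e2⟩)
        exact ⟨true :: z1, z2, by simp [e1], by simp [D, e2], e3⟩
      | false =>
        simp only [D, List.cons_append, List.cons.injEq] at h
        obtain ⟨rfl, h⟩ := h
        cases s with
        | nil =>
          exfalso
          apply hc
          exact ⟨[], D z, rfl, by simpa using h.symm⟩
        | cons y s =>
          simp only [List.cons_append, List.cons.injEq] at h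
          obtain ⟨rfl, h⟩ := h
          obtain ⟨z1, z2, e1, e2, e3⟩ := ih s h (by
            rintro ⟨s', t', e1, e2⟩
            exact hc ⟨false :: true :: s', t', by simp [e1], e2⟩)
          exact ⟨false :: z1, z2, by simp [e1], by simp [D, e2], e3⟩

/-! ### Lyndon words -/

theorem lyndon_true {w : Word} (h : IsLyndon (true :: w)) : w = [] := by
  by_contra hw
  obtain ⟨u, c, rfl⟩ : ∃ u c, w = u ++ [c] := by
    rcases List.eq_nil_or_concat w with h0 | ⟨u, c, h1⟩
    · exact absurd h0 hw
    · exact ⟨u, c, by simpa using h1⟩
  have h1 := h.2 (true :: u) [c] (by simp) (by simp) (by simp)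
  cases c
  · rcases List.cons_lt_cons_iff.1 h1 with h2 | h2
    · exact absurd h2 (by decide)
    · exact absurd h2.1 (by decide)
  · rcases List.cons_lt_cons_iff.1 h1 with h2 | h2
    · exact absurd h2 (by decide)
    · exact absurd h2.2 (by simp)

theorem lyndon_false {w : Word} (h : IsLyndon (w ++ [false])) : w = [] := by
  by_contra hw
  have h1 := h.2 w [false] hw (by simp) rfl
  cases w with
  | nil => exact hw rfl
  | cons c w =>
    rcases List.cons_lt_cons_iff.1 h1 with h2 | h2
    · cases c <;> exact absurd h2 (by decide)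
    · exact absurd h2.2 (by simp)

theorem lyndon_G {w : Word} (h : IsLyndon w) : IsLyndon (G w) := by
  refine ⟨G_ne h.1, fun x y hx hy e => ?_⟩
  by_cases hc : ∃ s' t', x = s' ++ [false] ∧ y = true :: t'
  · obtain ⟨s', t', -, rfl⟩ := hc
    exact G_lt_true w t'
  · obtain ⟨z1, z2, e1, e2, e3⟩ := G_cut w x y e hc
    have h1 : z1 ≠ [] := by rintro rfl; exact hx (by simpa [G] using e2.symm)
    have h2 : z2 ≠ [] := by rintro rfl; exact hy (by simpa [G] using e3.symm)
    rw [← e3]
    exact G_mono (h.2 z1 z2 h1 h2 e1)

theorem lyndon_D {w : Word} (h : IsLyndon w) : IsLyndon (D w) := by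
  refine ⟨D_ne h.1, fun x y hx hy e => ?_⟩
  by_cases hc : ∃ s' t', x = s' ++ [false] ∧ y = true :: t'
  · obtain ⟨s', t', hx', rfl⟩ := hc
    cases w with
    | nil => exact absurd rfl h.1
    | cons c w =>
      cases c with
      | false => simp [D, List.cons_lt_cons_iff]
      | true =>
        have hw := lyndon_true h
        subst hw
        subst hx'
        exfalso
        have := congrArg List.length e
        simp [D] at this
        omega
  · obtain ⟨z1, z2, e1, e2, e3⟩ := D_cut w x y e hc
    have h1 : z1 ≠ [] := by rintro rfl; exact hx (by simpa [D] using e2.symm)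
    have h2 : z2 ≠ [] := by rintro rfl; exact hy (by simpa [D] using e3.symm)
    rw [← e3]
    exact D_mono (h.2 z1 z2 h1 h2 e1)

theorem lyndon_of_G {w : Word} (h : IsLyndon (G w)) : IsLyndon w := by
  refine ⟨?_, fun u v hu hv e => ?_⟩
  · rintro rfl; exact h.1 rfl
  · have := h.2 (G u) (G v) (G_ne hu) (G_ne hv) (by rw [e, G_append])
    exact G_strictMono.lt_iff_lt.1 this

theorem lyndon_of_D {w : Word} (h : IsLyndon (D w)) : IsLyndon w := by
  refine ⟨?_, fun u v hu hv e => ?_⟩
  · rintro rfl; exact h.1 rfl
  · have := h.2 (D u) (D v) (D_ne hu) (D_ne hv) (by rw [e, D_append])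
    exact D_strictMono.lt_iff_lt.1 this

/-- a Lyndon word other than `a` and `b` starts with `a` and ends with `b` -/
theorem lyndon_shape {f : Word} (h : IsLyndon f) :
    f = [true] ∨ f = [false] ∨ ∃ g, f = false :: g ∧ ∃ k, f = k ++ [true] := by
  cases f with
  | nil => exact absurd rfl h.1
  | cons c g =>
    cases c with
    | true => left; rw [lyndon_true h]
    | false =>
      right
      obtain ⟨k, d, hk⟩ : ∃ k d, false :: g = k ++ [d] := by
        rcases List.eq_nil_or_concat (false :: g) with h0 | ⟨u, c, h1⟩
        · simp at h0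
        · exact ⟨u, c, by simpa using h1⟩
      cases d with
      | true => right; exact ⟨g, rfl, k, hk⟩
      | false =>
        left
        rw [hk] at h ⊢
        rw [lyndon_false h]; rfl

theorem G_factor {z f : Word} (hf : f <:+: G z) (h : IsLyndon f) :
    f = [true] ∨ f = [false] ∨ ∃ x, x <:+: z ∧ G x = f := by
  rcases lyndon_shape h with h1 | h1 | ⟨g, hg, k, hk⟩
  · exact Or.inl h1
  · exact Or.inr (Or.inl h1)
  · right; right
    obtain ⟨s, t, e⟩ := hf
    obtain ⟨z1, z2, e1, e2, e3⟩ := G_cut z s (f ++ t) (by rw [← e, List.append_assoc]) (by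
      rintro ⟨s', t', -, e2⟩
      rw [hg] at e2
      simp at e2)
    obtain ⟨z3, z4, e4, e5, e6⟩ := G_cut z2 f t e3 (by
      rintro ⟨s', t', e7, -⟩
      rw [hk] at e7
      have := congrArg List.getLast? e7
      simp at this)
    exact ⟨z3, ⟨z1, z4, by rw [e1, e4, List.append_assoc]⟩, e5⟩

theorem D_factor {z f : Word} (hf : f <:+: D z) (h : IsLyndon f) :
    f = [true] ∨ f = [false] ∨ ∃ x, x <:+: z ∧ D x = f := by
  rcases lyndon_shape h with h1 | h1 | ⟨g, hg, k, hk⟩
  · exact Or.inl h1
  · exact Or.inr (Or.inl h1)
  · right; right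
    obtain ⟨s, t, e⟩ := hf
    obtain ⟨z1, z2, e1, e2, e3⟩ := D_cut z s (f ++ t) (by rw [← e, List.append_assoc]) (by
      rintro ⟨s', t', -, e2⟩
      rw [hg] at e2
      simp at e2)
    obtain ⟨z3, z4, e4, e5, e6⟩ := D_cut z2 f t e3 (by
      rintro ⟨s', t', e7, -⟩
      rw [hk] at e7
      have := congrArg List.getLast? e7
      simp at this)
    exact ⟨z3, ⟨z1, z4, by rw [e1, e4, List.append_assoc]⟩, e5⟩

theorem finite_lyndonFactors (w : Word) : (lyndonFactors w).Finite := by
  refine Set.Finite.subset (List.finite_toSet w.sublists) ?_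
  rintro f ⟨hf, -⟩
  simpa using hf.sublist

theorem factor_letter {c : Bool} {z : Word} (h : c ∈ z) : [c] <:+: z := by
  obtain ⟨s, t, rfl⟩ := List.append_of_mem h
  exact ⟨s, t, by simp⟩

theorem lyndon_single (c : Bool) : IsLyndon [c] := by
  refine ⟨by simp, fun u v hu hv e => ?_⟩
  exfalso
  have h1 := congrArg List.length e
  have h2 := List.length_pos_iff.2 hu
  have h3 := List.length_pos_iff.2 hv
  simp at h1
  omega

theorem G_factor_map {x z : Word} (h : x <:+: z) : G x <:+: G z := by
  obtain ⟨s, t, rfl⟩ := h
  exact ⟨G s, G t, by simp [G_append]⟩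

theorem D_factor_map {x z : Word} (h : x <:+: z) : D x <:+: D z := by
  obtain ⟨s, t, rfl⟩ := h
  exact ⟨D s, D t, by simp [D_append]⟩

theorem L_G_le {z : Word} (h : false ∈ z) : L (G z) ≤ L z + 1 := by
  have h1 : lyndonFactors (G z) ⊆ insert [true] (G '' lyndonFactors z) := by
    rintro f ⟨hf, hl⟩
    rcases G_factor hf hl with rfl | rfl | ⟨x, hx, rfl⟩
    · exact Or.inl rfl
    · exact Or.inr ⟨[false], ⟨factor_letter h, lyndon_single _⟩, rfl⟩
    · exact Or.inr ⟨x, ⟨hx, lyndon_of_G hl⟩, rfl⟩
  have hfin := finite_lyndonFactors z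
  calc L (G z) ≤ (insert [true] (G '' lyndonFactors z)).ncard :=
        Set.ncard_le_ncard h1 ((hfin.image _).insert _)
    _ ≤ (G '' lyndonFactors z).ncard + 1 := Set.ncard_insert_le _ _
    _ ≤ L z + 1 := by
        have := Set.ncard_image_le (f := G) hfin
        unfold L; omega

theorem L_D_le {z : Word} (h : true ∈ z) : L (D z) ≤ L z + 1 := by
  have h1 : lyndonFactors (D z) ⊆ insert [false] (D '' lyndonFactors z) := by
    rintro f ⟨hf, hl⟩
    rcases D_factor hf hl with rfl | rfl | ⟨x, hx, rfl⟩
    · exact Or.inr ⟨[true], ⟨factor_letter h, lyndon_single _⟩, rfl⟩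
    · exact Or.inl rfl
    · exact Or.inr ⟨x, ⟨hx, lyndon_of_D hl⟩, rfl⟩
  have hfin := finite_lyndonFactors z
  calc L (D z) ≤ (insert [false] (D '' lyndonFactors z)).ncard :=
        Set.ncard_le_ncard h1 ((hfin.image _).insert _)
    _ ≤ (D '' lyndonFactors z).ncard + 1 := Set.ncard_insert_le _ _
    _ ≤ L z + 1 := by
        have := Set.ncard_image_le (f := D) hfin
        unfold L; omega

theorem true_mem_G {z : Word} (h : true ∈ z) : true ∈ G z := by
  induction z with
  | nil => simp at h
  | cons c z ih => cases c <;> simp_all [G]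

theorem false_mem_G {z : Word} (h : z ≠ []) : false ∈ G z := by
  cases z with
  | nil => exact absurd rfl h
  | cons c z => cases c <;> simp [G]

theorem false_mem_D {z : Word} (h : false ∈ z) : false ∈ D z := by
  induction z with
  | nil => simp at h
  | cons c z ih => cases c <;> simp_all [D]

theorem true_mem_D {z : Word} (h : z ≠ []) : true ∈ D z := by
  cases z with
  | nil => exact absurd rfl h
  | cons c z => cases c <;> simp [D]

theorem L_G_ge {z : Word} (h : true ∈ z) : L z + 1 ≤ L (G z) := by
  have h1 : insert [true] (G '' lyndonFactors z) ⊆ lyndonFactors (G z) := by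
    rintro f (rfl | ⟨x, ⟨hx, hl⟩, rfl⟩)
    · exact ⟨factor_letter (true_mem_G h), lyndon_single _⟩
    · exact ⟨G_factor_map hx, lyndon_G hl⟩
  have hfin := finite_lyndonFactors z
  have h2 : [true] ∉ G '' lyndonFactors z := by
    rintro ⟨x, ⟨hx, hl⟩, e⟩
    obtain ⟨v, hv⟩ := G_head hl.1
    rw [hv] at e
    simp at e
  calc L z + 1 = (G '' lyndonFactors z).ncard + 1 := by
        rw [Set.ncard_image_of_injective _ G_strictMono.injective]; rfl
    _ = (insert [true] (G '' lyndonFactors z)).ncard :=
        (Set.ncard_insert_of_notMem h2 (hfin.image _)).symm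
    _ ≤ L (G z) := Set.ncard_le_ncard h1 (finite_lyndonFactors _)

theorem L_D_ge {z : Word} (h : false ∈ z) : L z + 1 ≤ L (D z) := by
  have h1 : insert [false] (D '' lyndonFactors z) ⊆ lyndonFactors (D z) := by
    rintro f (rfl | ⟨x, ⟨hx, hl⟩, rfl⟩)
    · exact ⟨factor_letter (false_mem_D h), lyndon_single _⟩
    · exact ⟨D_factor_map hx, lyndon_D hl⟩
  have hfin := finite_lyndonFactors z
  have h2 : [false] ∉ D '' lyndonFactors z := by
    rintro ⟨x, ⟨hx, hl⟩, e⟩
    cases x with
    | nil => exact hl.1 rfl
    | cons c x => cases c <;> simp [D] at e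
  calc L z + 1 = (D '' lyndonFactors z).ncard + 1 := by
        rw [Set.ncard_image_of_injective _ D_strictMono.injective]; rfl
    _ = (insert [false] (D '' lyndonFactors z)).ncard :=
        (Set.ncard_insert_of_notMem h2 (hfin.image _)).symm
    _ ≤ L (D z) := Set.ncard_le_ncard h1 (finite_lyndonFactors _)

/-! ### Christoffel words as codings of a rotation -/

/-- Coding of the orbit of `t` under `t ↦ t - r` (letter `b`, if `t ≥ r`), `t ↦ t + s` (letter `a`, if `t < r`). -/
def orb (r s : ℕ) : ℕ → ℕ → Word
  | _, 0 => []
  | t, k + 1 => if r ≤ t then true :: orb r s (t - r) k else false :: orb r s (t + s) k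

/-- The state reached after `k` steps. -/
def fin (r s : ℕ) : ℕ → ℕ → ℕ
  | t, 0 => t
  | t, k + 1 => if r ≤ t then fin r s (t - r) k else fin r s (t + s) k

theorem orb_length (r s k : ℕ) : ∀ t, (orb r s t k).length = k := by
  induction k with
  | zero => intro t; rfl
  | succ k ih => intro t; unfold orb; split <;> simp [ih]

theorem fin_spec (r s k : ℕ) : ∀ t, t < r + s →
    fin r s t k < r + s ∧ t + s * k = fin r s t k + (r + s) * (orb r s t k).count true := by
  induction k with
  | zero => intro t ht; simp [fin, orb, ht]
  | succ k ih =>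
    intro t ht
    unfold fin orb
    split_ifs with h
    · obtain ⟨h1, h2⟩ := ih (t - r) (by omega)
      refine ⟨h1, ?_⟩
      rw [List.count_cons_self, Nat.mul_succ, Nat.mul_succ, ← Nat.add_assoc, ← Nat.add_assoc, ← h2]
      omega
    · obtain ⟨h1, h2⟩ := ih (t + s) (by omega)
      refine ⟨h1, ?_⟩
      rw [List.count_cons_of_ne (by decide), Nat.mul_succ, ← h2]
      omega

theorem christoffel_aux (n p : ℕ) (hp : p ≤ n) (hn : 0 < n) (k : ℕ) : ∀ i,
    (List.range' i k).map (fun i => decide ((i + 1) * p / n ≠ i * p / n)) =
      orb (n - p) p (i * p % n) k := by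
  induction k with
  | zero => intro i; rfl
  | succ k ih =>
    intro i
    have h1 : n * (i * p / n) + i * p % n = i * p := Nat.div_add_mod _ _
    have h2 : i * p % n < n := Nat.mod_lt _ hn
    have h3 : (i + 1) * p = i * p + p := by ring
    rw [List.range'_succ, List.map_cons, ih (i + 1), orb]
    generalize hq : i * p / n = q at *
    generalize ht : i * p % n = t at *
    split_ifs with h
    · have h4 : (i + 1) * p = (t + p - n) + n * (q + 1) := by
        rw [h3, ← h1, Nat.mul_succ]; omega
      have h5 : (i + 1) * p / n = q + 1 := by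
        rw [h4, Nat.add_mul_div_left _ _ hn, Nat.div_eq_of_lt (by omega)]; omega
      have h6 : (i + 1) * p % n = t - (n - p) := by
        rw [h4, Nat.add_mul_mod_self_left, Nat.mod_eq_of_lt (by omega)]; omega
      rw [h5, h6]
      simp
    · have h4 : (i + 1) * p = (t + p) + n * q := by
        rw [h3, ← h1]; omega
      have h5 : (i + 1) * p / n = q := by
        rw [h4, Nat.add_mul_div_left _ _ hn, Nat.div_eq_of_lt (by omega)]; omega
      have h6 : (i + 1) * p % n = t + p := by
        rw [h4, Nat.add_mul_mod_self_left, Nat.mod_eq_of_lt (by omega)]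
      rw [h5, h6]
      simp

/-- the word of the pair `(r, s)` -/
def W (r s : ℕ) : Word := orb r s 0 (r + s)

theorem christoffel_eq (n p : ℕ) (hp : p ≤ n) (hn : 0 < n) : christoffel p n = W (n - p) p := by
  have h := christoffel_aux n p hp hn n 0
  rw [← List.range_eq_range'] at h
  unfold christoffel W
  rw [h, Nat.sub_add_cancel hp]
  simp

theorem G_orb (r s k : ℕ) : ∀ t, t < r + s →
    G (orb r s t k) = orb (r + s) s t (k + (orb r s t k).count true) := by
  induction k with
  | zero => intro t ht; simp [orb, G]
  | succ k ih =>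
    intro t ht
    by_cases h : r ≤ t
    · have e1 : orb r s t (k + 1) = true :: orb r s (t - r) k := by
        rw [orb, if_pos h]
      rw [e1, G, ih (t - r) (by omega), List.count_cons_self,
        show k + 1 + ((orb r s (t - r) k).count true + 1) = (k + (orb r s (t - r) k).count true) + 1 + 1 by omega]
      conv_rhs => rw [orb, if_neg (by omega), orb, if_pos (by omega)]
      congr 3
      omega
    · have e1 : orb r s t (k + 1) = false :: orb r s (t + s) k := by
        rw [orb, if_neg h]
      rw [e1, G, ih (t + s) (by omega), List.count_cons_of_ne (by decide),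
        show k + 1 + (orb r s (t + s) k).count true = (k + (orb r s (t + s) k).count true) + 1 by omega]
      conv_rhs => rw [orb, if_neg (by omega)]

theorem D_orb (r s k : ℕ) : ∀ t, t < r + s →
    D (orb r s t k) = orb r (r + s) t (k + (orb r s t k).count false) := by
  induction k with
  | zero => intro t ht; simp [orb, D]
  | succ k ih =>
    intro t ht
    by_cases h : r ≤ t
    · have e1 : orb r s t (k + 1) = true :: orb r s (t - r) k := by
        rw [orb, if_pos h]
      rw [e1, D, ih (t - r) (by omega), List.count_cons_of_ne (by decide),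
        show k + 1 + (orb r s (t - r) k).count false = (k + (orb r s (t - r) k).count false) + 1 by omega]
      conv_rhs => rw [orb, if_pos (by omega)]
    · have e1 : orb r s t (k + 1) = false :: orb r s (t + s) k := by
        rw [orb, if_neg h]
      rw [e1, D, ih (t + s) (by omega), List.count_cons_self,
        show k + 1 + ((orb r s (t + s) k).count false + 1) = (k + (orb r s (t + s) k).count false) + 1 + 1 by omega]
      conv_rhs => rw [orb, if_neg (by omega), orb, if_pos (by omega)]
      congr 3
      omega

theorem count_true_W (r s : ℕ) (h : 0 < r + s) : (W r s).count true = s := by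
  obtain ⟨h1, h2⟩ := fin_spec r s (r + s) 0 h
  unfold W
  generalize fin r s 0 (r + s) = f at *
  generalize (orb r s 0 (r + s)).count true = c at *
  rcases Nat.lt_trichotomy c s with h3 | h3 | h3
  · exfalso
    obtain ⟨d, rfl⟩ := Nat.exists_eq_add_of_lt h3
    nlinarith [Nat.zero_le d]
  · exact h3
  · exfalso
    obtain ⟨d, rfl⟩ := Nat.exists_eq_add_of_lt h3
    nlinarith [Nat.zero_le d, Nat.zero_le f]

theorem count_false_W (r s : ℕ) (h : 0 < r + s) : (W r s).count false = r := by
  have h1 := count_true_W r s h
  have h2 := List.count_true_add_count_false (W r s)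
  rw [h1, W, orb_length] at h2
  unfold W
  omega

theorem W_G (r s : ℕ) (h : 0 < r + s) : W (r + s) s = G (W r s) := by
  have h1 := count_true_W r s h
  unfold W at *
  rw [G_orb r s (r + s) 0 h, h1]

theorem W_D (r s : ℕ) (h : 0 < r + s) : W r (r + s) = D (W r s) := by
  have h1 := count_false_W r s h
  unfold W at *
  rw [D_orb r s (r + s) 0 h, h1]
  congr 1
  omega

theorem ab_factor (z : Word) (h : true ∈ z) : [false, true] <:+: false :: z := by
  induction z with
  | nil => simp at h
  | cons c z ih =>
    cases c with
    | true => exact ⟨[], z, rfl⟩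
    | false =>
      obtain ⟨s, t, e⟩ := ih (by simpa using h)
      exact ⟨false :: s, t, by simp [← e]⟩

theorem lyndon_ab : IsLyndon [false, true] := by
  refine ⟨by simp, fun u v hu hv e => ?_⟩
  match u, v with
  | [], _ => exact absurd rfl hu
  | [x], y :: v =>
    simp at e
    obtain ⟨rfl, rfl, rfl⟩ := e
    simp [List.cons_lt_cons_iff]
  | [x], [] => exact absurd rfl hv
  | x :: y :: u, v =>
    simp at e
    exact absurd e.2.2.2 hv

theorem L_base (r s : ℕ) (hr : 0 < r) (hs : 0 < s) : 3 ≤ L (W r s) := by
  have h1 : true ∈ W r s := by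
    rw [← List.count_pos_iff, count_true_W r s (by omega)]; exact hs
  obtain ⟨k, hk⟩ : ∃ k, r + s = k + 1 := ⟨r + s - 1, by omega⟩
  have h2 : ∃ z, W r s = false :: z := by
    unfold W
    rw [hk, orb, if_neg (by omega)]
    exact ⟨_, rfl⟩
  obtain ⟨z, hz⟩ := h2
  rw [hz] at h1 ⊢
  have h3 : true ∈ z := by simpa using h1
  have h4 : ({[false], [true], [false, true]} : Set Word) ⊆ lyndonFactors (false :: z) := by
    rintro f (rfl | rfl | rfl)
    · exact ⟨factor_letter (by simp), lyndon_single _⟩
    · exact ⟨factor_letter h1, lyndon_single _⟩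
    · exact ⟨ab_factor z h3, lyndon_ab⟩
  calc 3 = ({[false], [true], [false, true]} : Set Word).ncard := by
        rw [Set.ncard_eq_toFinset_card']; rfl
    _ ≤ L (false :: z) := Set.ncard_le_ncard h4 (finite_lyndonFactors _)

/-- subtractive Euclid on `(r, s)` runs for at least `k` steps with unequal positive entries -/
def deep : ℕ → ℕ → ℕ → Bool
  | 0, r, s => decide (0 < r) && decide (0 < s)
  | k + 1, r, s => if s < r then deep k (r - s) s else if r < s then deep k r (s - r) else false

theorem deep_spec (k : ℕ) : ∀ r s, deep k r s = true → 0 < r ∧ 0 < s ∧ k + 3 ≤ L (W r s) := by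
  induction k with
  | zero =>
    intro r s h
    simp [deep] at h
    exact ⟨h.1, h.2, by simpa using L_base r s h.1 h.2⟩
  | succ k ih =>
    intro r s h
    unfold deep at h
    split_ifs at h with h1 h2
    · obtain ⟨a1, a2, a3⟩ := ih _ _ h
      refine ⟨by omega, a2, ?_⟩
      have h3 : W r s = G (W (r - s) s) := by
        have := W_G (r - s) s (by omega)
        rwa [Nat.sub_add_cancel h1.le] at this
      have h4 : true ∈ W (r - s) s := by
        rw [← List.count_pos_iff, count_true_W _ _ (by omega)]; exact a2
      have := L_G_ge h4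
      rw [h3]
      omega
    · obtain ⟨a1, a2, a3⟩ := ih _ _ h
      refine ⟨a1, by omega, ?_⟩
      have h3 : W r s = D (W r (s - r)) := by
        have := W_D r (s - r) (by omega)
        rwa [Nat.add_sub_cancel' h2.le] at this
      have h4 : false ∈ W r (s - r) := by
        rw [← List.count_pos_iff, count_false_W _ _ (by omega)]; exact a1
      have := L_D_ge h4
      rw [h3]
      omega

/-! ### the counterexample of length 5052 -/

/-- `aabaabbaabaabbaabb` -/
def z0 : Word := [false, false, true, false, false, true, true, false, false, true, false, false,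
  true, true, false, false, true, true]

/-- The word of length 5052. -/
def w0 : Word := D (G (D (G (G (D (G (D (G (D (G (D z0)))))))))))

/-- Boolean Lyndon test -/
def lyndonB (w : Word) : Bool :=
  (List.range (w.length - 1)).all fun i => decide (w < w.drop (i + 1))

theorem lyndonB_of {w : Word} (h : IsLyndon w) : lyndonB w = true := by
  unfold lyndonB
  rw [List.all_eq_true]
  intro i hi
  rw [List.mem_range] at hi
  rw [decide_eq_true_iff]
  refine h.2 (w.take (i + 1)) (w.drop (i + 1)) ?_ ?_ (List.take_append_drop _ _).symm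
  · intro e
    have := congrArg List.length e
    rw [List.length_take] at this
    simp only [List.length_nil] at this
    omega
  · intro e
    have := congrArg List.length e
    rw [List.length_drop] at this
    simp only [List.length_nil] at this
    omega

theorem of_lyndonB {w : Word} (h0 : w ≠ []) (h : lyndonB w = true) : IsLyndon w := by
  refine ⟨h0, fun u v hu hv e => ?_⟩
  unfold lyndonB at h
  rw [List.all_eq_true] at h
  have h1 := List.length_pos_iff.2 hu
  have h2 := List.length_pos_iff.2 hv
  have h3 : w.length = u.length + v.length := by rw [e, List.length_append]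
  have h4 := h (u.length - 1) (by rw [List.mem_range]; omega)
  rw [decide_eq_true_iff] at h4
  rw [Nat.sub_add_cancel h1, e, List.drop_left] at h4
  rw [e]
  exact h4

theorem lyndon_z0 : IsLyndon z0 := of_lyndonB (by decide) (by decide +kernel)

/-- the nine Lyndon factors of `z0` -/
def nine : List Word := ((List.range 18).flatMap fun i => (List.range 19).map fun j =>
  (z0.drop i).take j).dedup.filter fun f => f.length ≠ 0 ∧ lyndonB f = true

theorem nine_length : nine.length = 9 := by decide +kernel

theorem ncard_le_of_list (S : Set Word) (l : List Word) (h : S ⊆ {f | f ∈ l}) :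
    S.ncard ≤ l.length := by
  calc S.ncard ≤ ({f | f ∈ l} : Set Word).ncard := Set.ncard_le_ncard h (List.finite_toSet _)
    _ = l.toFinset.card := by
        rw [← Set.ncard_coe_finset]; congr 1; ext f; simp
    _ ≤ l.length := List.toFinset_card_le _

theorem L_z0 : L z0 ≤ 9 := by
  have h1 : lyndonFactors z0 ⊆ {f | f ∈ nine} := by
    rintro f ⟨⟨s, t, e⟩, hl⟩
    have hlen : s.length + f.length + t.length = 18 := by
      have := congrArg List.length e
      simp [z0] at this
      omega
    have hpos := List.length_pos_iff.2 hl.1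
    show f ∈ nine
    unfold nine
    rw [List.mem_filter, List.mem_dedup, List.mem_flatMap]
    refine ⟨⟨s.length, by rw [List.mem_range]; omega, ?_⟩, ?_⟩
    · rw [List.mem_map]
      refine ⟨f.length, by rw [List.mem_range]; omega, ?_⟩
      rw [← e, List.append_assoc, List.drop_left, List.take_left]
    · simp only [decide_eq_true_eq]
      exact ⟨by omega, lyndonB_of hl⟩
  exact (ncard_le_of_list _ nine h1).trans nine_length.le

/-- both letters occur and `L ≤ k` -/
def Good (k : ℕ) (z : Word) : Prop := IsLyndon z ∧ false ∈ z ∧ true ∈ z ∧ L z ≤ k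

theorem good_G {k : ℕ} {z : Word} (h : Good k z) : Good (k + 1) (G z) :=
  ⟨lyndon_G h.1, false_mem_G h.1.1, true_mem_G h.2.2.1, by
    have := L_G_le h.2.1; have := h.2.2.2; omega⟩

theorem good_D {k : ℕ} {z : Word} (h : Good k z) : Good (k + 1) (D z) :=
  ⟨lyndon_D h.1, false_mem_D h.2.1, true_mem_D h.1.1, by
    have := L_D_le h.2.2.1; have := h.2.2.2; omega⟩

theorem good_w0 : Good 21 w0 := by
  have h : Good 9 z0 := ⟨lyndon_z0, by decide, by decide, L_z0⟩
  exact good_D (good_G (good_D (good_G (good_G (good_D (good_G (good_D (good_G (good_D (good_G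
    (good_D h)))))))))))

theorem length_w0 : w0.length = 5052 := by decide +kernel

theorem m_le : m 5052 ≤ 21 :=
  (Nat.sInf_le (show L w0 ∈ {k | ∃ w : Word, w.length = 5052 ∧ IsLyndon w ∧ L w = k} from
    ⟨w0, length_w0, good_w0.1, rfl⟩)).trans good_w0.2.2.2

theorem all_deep_aux : ∀ i < 72, ∀ j < 71, 71 * i + j < 5053 → Nat.gcd (71 * i + j) 5052 = 1 →
    deep 19 (5052 - (71 * i + j)) (71 * i + j) = true := by
  decide +kernel

theorem all_deep (p : ℕ) (hp : p < 5053) (h : Nat.gcd p 5052 = 1) :
    deep 19 (5052 - p) p = true := by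
  have h1 := all_deep_aux (p / 71) (by omega) (p % 71) (by omega)
  rw [Nat.div_add_mod] at h1
  exact h1 hp h

/-- **Counterexample to Q1.** For `n = 5052` one has `m(n) ≤ 21`, while every Christoffel word of
length `5052` has at least `22` distinct Lyndon factors. Hence it is false that every length `n`
has a Christoffel word attaining `m(n)`. -/
theorem result :
    (m 5052 ≤ 21 ∧ ∀ p ≤ 5052, Nat.Coprime p 5052 → 22 ≤ L (christoffel p 5052)) ∧
    ¬ (∀ n ≥ 1, ∃ p ≤ n, Nat.Coprime p n ∧ L (christoffel p n) = m n) := by
  have h : ∀ p ≤ 5052, Nat.Coprime p 5052 → 22 ≤ L (christoffel p 5052) := by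
    intro p hp hc
    rw [christoffel_eq 5052 p hp (by norm_num)]
    exact (deep_spec 19 _ _ (all_deep p (by omega) hc)).2.2
  refine ⟨⟨m_le, h⟩, fun hall => ?_⟩
  obtain ⟨p, hp, hc, he⟩ := hall 5052 (by norm_num)
  have h1 := h p hp hc
  have h2 := m_le
  omega

end Pool.Agent.Results.MP_c50127_co.ChristoffelLyndon
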